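import Mathlib
import Pool.Agent.V11141.ChromDef
import Pool.Agent.V11141.ChromH

/-!
# The partial sum inequalities for the chromatic `h`-polynomial
-/

namespace Pool.Agent.Results.MP_f4be1e_co.PartialSums

open Pool.Agent.V11141.Chrom

/-- For every finite graph `G` on `d ≥ 1` vertices there is a polynomial `h` with
`∑ χ_G(n) z^n = h(z) / (1-z)^(d+1)`, and it satisfies
`h_d + ... + h_(d-i+1) - (h_0 + ... + h_i) ≥ 0` for `1 ≤ i ≤ ⌊d/2⌋`. -/
theorem result {V : Type} [Fintype V] [Nonempty V] (G : SimpleGraph V) :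
    ∃ h : Polynomial ℤ,
      (1 - PowerSeries.X) ^ (Fintype.card V + 1) * gen G = (h : PowerSeries ℤ) ∧
      ∀ i : ℕ, 1 ≤ i → i ≤ Fintype.card V / 2 →
        0 ≤ ∑ j ∈ Finset.Icc (Fintype.card V - i + 1) (Fintype.card V), h.coeff j -
          ∑ j ∈ Finset.range (i + 1), h.coeff j := by
  obtain ⟨h, -, hh⟩ := exists_poly G
  refine ⟨h, hh, fun i hi1 hi2 => ?_⟩
  have h1 := (main V _ G rfl).1 i (by omega)
  rw [hh, S_coe, S_coe, S_coe] at h1
  have h2 : ∑ j ∈ Finset.Icc (Fintype.card V - i + 1) (Fintype.card V), h.coeff j =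
      ∑ j ∈ Finset.range (Fintype.card V + 1), h.coeff j -
        ∑ j ∈ Finset.range (Fintype.card V + 1 - i), h.coeff j := by
    rw [← Finset.sum_Ico_eq_sub _ (by omega)]
    have : Fintype.card V - i + 1 = Fintype.card V + 1 - i := by omega
    rw [this]
    rfl
  rw [h2]
  exact h1

end Pool.Agent.Results.MP_f4be1e_co.PartialSums
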